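import Pool.Agent.N627.ND.Stm

/-!
# Hadamard set systems have large discrepancy (helper499)
-/

set_option autoImplicit false

namespace Pool.Agent.N499.ND

open Pool.Agent.N627.ND

/-- the entries of the Hadamard matrix -/
def hh {k : ℕ} (x y : Fin k → Bool) : ℤ := ∏ i, if x i = true ∧ y i = true then (-1 : ℤ) else 1

theorem hh_sign {k : ℕ} (x y : Fin k → Bool) : hh x y = 1 ∨ hh x y = -1 := by
  unfold hh
  induction (Finset.univ : Finset (Fin k)) using Finset.induction_on with
  | empty => left; rfl
  | insert i s hi ih =>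
    rw [Finset.prod_insert hi]
    rcases ih with h | h <;> rw [h] <;> split_ifs <;> simp

theorem hh_orth {k : ℕ} (a a' : Fin k → Bool) :
    ∑ b, hh b a * hh b a' = if a = a' then (2 : ℤ) ^ k else 0 := by
  unfold hh
  simp only [← Finset.prod_mul_distrib]
  have h1 := (Finset.prod_univ_sum (fun _ : Fin k => (Finset.univ : Finset Bool))
    (fun i t => (if t = true ∧ a i = true then (-1 : ℤ) else 1) *
      (if t = true ∧ a' i = true then (-1 : ℤ) else 1)))
  rw [Fintype.piFinset_univ] at h1
  rw [← h1]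
  have h2 : ∀ i, ∑ t : Bool, (if t = true ∧ a i = true then (-1 : ℤ) else 1) *
      (if t = true ∧ a' i = true then (-1 : ℤ) else 1) = if a i = a' i then 2 else 0 := by
    intro i
    rw [Fintype.sum_bool]
    cases a i <;> cases a' i <;> simp
  rw [Finset.prod_congr rfl fun i _ => h2 i]
  by_cases h : a = a'
  · rw [if_pos h, h]
    simp
  · rw [if_neg h]
    obtain ⟨i, hi⟩ := Function.ne_iff.1 h
    exact Finset.prod_eq_zero (Finset.mem_univ i) (if_neg hi)

theorem exists_large {k : ℕ} (χ : (Fin k → Bool) → ℤ) (hχ : ∀ a, χ a = 1 ∨ χ a = -1) :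
    ∃ b, (2 : ℤ) ^ k ≤ (∑ a, hh b a * χ a) ^ 2 := by
  by_contra hcon
  push Not at hcon
  have h1 : ∑ b, (∑ a, hh b a * χ a) ^ 2 = 2 ^ k * 2 ^ k := by
    calc ∑ b, (∑ a, hh b a * χ a) ^ 2 = ∑ b, ∑ a, ∑ a', χ a * χ a' * (hh b a * hh b a') := by
          refine Finset.sum_congr rfl fun b _ => ?_
          rw [sq, Finset.sum_mul_sum]
          refine Finset.sum_congr rfl fun a _ => Finset.sum_congr rfl fun a' _ => ?_
          ring
      _ = ∑ a, ∑ a', χ a * χ a' * ∑ b, hh b a * hh b a' := by
          rw [Finset.sum_comm]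
          refine Finset.sum_congr rfl fun a _ => ?_
          rw [Finset.sum_comm]
          refine Finset.sum_congr rfl fun a' _ => ?_
          rw [Finset.mul_sum]
      _ = ∑ a, χ a * χ a * 2 ^ k := by
          refine Finset.sum_congr rfl fun a _ => ?_
          rw [Finset.sum_eq_single a]
          · rw [hh_orth, if_pos rfl]
          · intro a' _ ha
            rw [hh_orth, if_neg (Ne.symm ha), mul_zero]
          · intro h
            exact absurd (Finset.mem_univ a) h
      _ = ∑ a : Fin k → Bool, (2 : ℤ) ^ k := by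
          refine Finset.sum_congr rfl fun a _ => ?_
          rcases hχ a with h | h <;> rw [h] <;> norm_num
      _ = 2 ^ k * 2 ^ k := by
          rw [Finset.sum_const, Finset.card_univ, Fintype.card_fun, Fintype.card_bool,
            Fintype.card_fin, nsmul_eq_mul]
          push_cast
          rfl
  have h2 : ∑ b, (∑ a, hh b a * χ a) ^ 2 < ∑ b : Fin k → Bool, (2 : ℤ) ^ k :=
    Finset.sum_lt_sum_of_nonempty Finset.univ_nonempty fun b _ => hcon b
  rw [h1, Finset.sum_const, Finset.card_univ, Fintype.card_fun, Fintype.card_bool,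
    Fintype.card_fin, nsmul_eq_mul] at h2
  push_cast at h2
  exact lt_irrefl _ h2

theorem ha : S_HA := by
  classical
  intro k
  let e : Fin (2 ^ k) ≃ (Fin k → Bool) := (Fintype.equivFinOfCardEq (by
    rw [Fintype.card_fun, Fintype.card_bool, Fintype.card_fin])).symm
  refine ⟨fun a b => hh (e b) (e a) = 1, ?_⟩
  intro χ hχ
  obtain ⟨b, hb⟩ := exists_large (fun x => χ (e.symm x)) fun a => hχ _
  -- the sums
  have key : ∀ b : Fin k → Bool, ∑ a, hh b a * χ (e.symm a) =
      2 * (∑ a ∈ Finset.univ.filter (fun a => hh (e (e.symm b)) (e a) = 1), χ a) - ∑ a, χ a := by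
    intro b
    rw [← Equiv.sum_comp e fun a => hh b a * χ (e.symm a)]
    rw [Finset.sum_filter, Finset.mul_sum, ← Finset.sum_sub_distrib]
    refine Finset.sum_congr rfl fun a _ => ?_
    rw [e.apply_symm_apply, e.symm_apply_apply]
    rcases hh_sign b (e a) with h | h
    · rw [h, if_pos rfl]
      ring
    · rw [h, if_neg (by norm_num)]
      ring
  have h0 : (∑ a ∈ Finset.univ.filter (fun a => hh (e (e.symm fun _ => false)) (e a) = 1), χ a) =
      ∑ a, χ a := by
    apply Finset.sum_congr _ fun _ _ => rfl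
    apply Finset.filter_true_of_mem
    intro a _
    rw [e.apply_symm_apply]
    unfold hh
    simp
  rw [key b] at hb
  by_contra hcon
  push Not at hcon
  have h1 := hcon (e.symm b)
  have h2 := hcon (e.symm fun _ => false)
  rw [h0] at h2
  have h3 : 9 * (∑ a ∈ Finset.univ.filter (fun a => hh (e (e.symm b)) (e a) = 1), χ a) ^ 2 <
      (2 : ℤ) ^ k := by exact_mod_cast h1
  have h4 : 9 * (∑ a, χ a) ^ 2 < (2 : ℤ) ^ k := by exact_mod_cast h2
  nlinarith [sq_nonneg ((∑ a ∈ Finset.univ.filter (fun a => hh (e (e.symm b)) (e a) = 1), χ a) +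
    ∑ a, χ a)]

end Pool.Agent.N499.ND
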